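import Pool.Agent.Work.MP_223b32_tc.Interface

/-! # Block NW (helper52): Newton's identities -/

namespace Pool.Agent.Work.TC

open Finset Polynomial Pool.Agent.Work.MP_223b32_ag Pool.Agent.Work.MP_223b32_ag_56

namespace NW

/-- Newton's identities for the numbers `(-1) ^ k * e_k`. -/
theorem newton (N : ℕ) (β : Fin N → ℂ) (b : ℕ → ℂ)
    (hb : ∀ k, b k = (-1) ^ k * (Multiset.map β univ.val).esymm k) (k : ℕ) :
    (k : ℂ) * b k = - ∑ j ∈ Icc 1 k, (∑ i, β i ^ j) * b (k - j) := by
  have h1 := congrArg (MvPolynomial.aeval β) (MvPolynomial.mul_esymm_eq_sum (Fin N) ℂ k)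
  simp only [map_mul, map_natCast, map_pow, map_neg, map_one, map_sum] at h1
  simp only [MvPolynomial.aeval_esymm_eq_multiset_esymm] at h1
  have h2 : ∀ j, (MvPolynomial.aeval β) (MvPolynomial.psum (Fin N) ℂ j) = ∑ i, β i ^ j := by
    intro j
    rw [MvPolynomial.psum, map_sum]
    simp
  simp only [h2] at h1
  have h3 : ∑ a ∈ antidiagonal k with a.1 < k, (-1 : ℂ) ^ a.1 *
      (Multiset.map β univ.val).esymm a.1 * ∑ i, β i ^ a.2 =
      ∑ j ∈ Icc 1 k, (∑ i, β i ^ j) * b (k - j) := by
    refine Finset.sum_bij (fun a _ => a.2) ?_ ?_ ?_ ?_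
    · intro a ha
      have h4 := (mem_filter.1 ha).2
      have h5 := mem_antidiagonal.1 (mem_filter.1 ha).1
      exact mem_Icc.2 ⟨by omega, by omega⟩
    · intro a ha a' ha' h
      have h5 := mem_antidiagonal.1 (mem_filter.1 ha).1
      have h6 := mem_antidiagonal.1 (mem_filter.1 ha').1
      refine Prod.ext ?_ h
      omega
    · intro j hj
      have h4 := mem_Icc.1 hj
      refine ⟨(k - j, j), ?_, rfl⟩
      refine mem_filter.2 ⟨mem_antidiagonal.2 (by simp only; omega), by simp only; omega⟩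
    · intro a ha
      have h5 := mem_antidiagonal.1 (mem_filter.1 ha).1
      have h6 : k - a.2 = a.1 := by omega
      rw [h6, hb]
      ring
  rw [h3] at h1
  rw [hb k]
  have h4 : (k : ℂ) * ((-1) ^ k * (Multiset.map β univ.val).esymm k) =
      (-1) ^ k * ((k : ℂ) * (Multiset.map β univ.val).esymm k) := by ring
  rw [h4, h1, ← mul_assoc, ← pow_add]
  have h5 : (-1 : ℂ) ^ (k + (k + 1)) = -1 := by
    have : k + (k + 1) = 2 * k + 1 := by ring
    rw [this, pow_succ, pow_mul]
    norm_num
  rw [h5]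
  ring

end NW

theorem stmt_NW : Stmt_NW := by
  intro N b Λ hb0 hbN hrec
  obtain ⟨P, hP⟩ : ∃ P : ℂ[X], P = ∑ m ∈ range (N + 1), C (b m : ℂ) * X ^ (N - m) := ⟨_, rfl⟩
  have hcoef : ∀ m ≤ N, P.coeff (N - m) = b m := by
    intro m hm
    rw [hP, finsetSum_coeff, Finset.sum_eq_single m]
    · rw [coeff_C_mul_X_pow, if_pos rfl]
    · intro k hk hkm
      rw [coeff_C_mul_X_pow, if_neg]
      have := mem_range.1 hk
      omega
    · intro h
      exact absurd (mem_range.2 (by omega)) h
  have hdeg : P.natDegree ≤ N := by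
    rw [hP]
    refine natDegree_sum_le_of_forall_le _ _ fun m _ => ?_
    exact (natDegree_C_mul_X_pow_le _ _).trans (Nat.sub_le _ _)
  have hc0 : P.coeff N = 1 := by
    have h := hcoef 0 (Nat.zero_le _)
    rw [hb0, Nat.sub_zero] at h
    rw [h]
    norm_num
  have hmon : P.Monic := monic_of_natDegree_le_of_coeff_eq_one N hdeg hc0
  have hnd : P.natDegree = N :=
    natDegree_eq_of_le_of_coeff_ne_zero hdeg (by rw [hc0]; exact one_ne_zero)
  have hcard : P.roots.card = P.natDegree := splits_iff_card_roots.1 (IsAlgClosed.splits P)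
  have hprod := prod_multiset_X_sub_C_of_monic_of_roots_card_eq hmon hcard
  obtain ⟨β, hβ⟩ : ∃ β : Fin N → ℂ, Multiset.map β univ.val = P.roots := by
    obtain ⟨l, hl⟩ := Quot.exists_rep P.roots
    have hl' : (l : Multiset ℂ) = P.roots := hl
    have hlen : l.length = N := by
      rw [← Multiset.coe_card, hl', hcard, hnd]
    subst hlen
    refine ⟨l.get, ?_⟩
    rw [← hl', Fin.univ_val_map, List.ofFn_get]
  have hcardβ : (Multiset.map β univ.val).card = N := by
    rw [hβ, hcard, hnd]
  have hbe : ∀ k, (b k : ℂ) = (-1) ^ k * (Multiset.map β univ.val).esymm k := by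
    intro k
    by_cases hk : k ≤ N
    · have h1 := Multiset.prod_X_sub_C_coeff (Multiset.map β univ.val) (k := N - k)
        (by rw [hcardβ]; omega)
      rw [hcardβ, hβ, hprod, hcoef k hk, Nat.sub_sub_self hk] at h1
      rw [hβ]
      exact h1
    · rw [hbN k (by omega)]
      have h1 : (Multiset.map β univ.val).esymm k = 0 := by
        rw [Multiset.esymm, Multiset.powersetCard_eq_empty _ (by rw [hcardβ]; omega)]
        simp
      rw [h1, mul_zero, Int.cast_zero]
  refine ⟨β, ?_, ?_⟩
  · rw [← hP, ← hprod, ← hβ, Multiset.map_map]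
    rfl
  · intro k hk
    induction k using Nat.strong_induction_on with
    | _ k ih =>
      have h1 := NW.newton N β (fun k => (b k : ℂ)) hbe k
      have h2 : (k : ℂ) * (b k : ℂ) = ∑ j ∈ Icc 1 k, (Λ j : ℂ) * (b (k - j) : ℂ) := by
        have h3 := hrec k hk
        exact_mod_cast congrArg (Int.cast : ℤ → ℂ) h3
      have h4 : ∑ j ∈ Icc 1 k, ((Λ j : ℂ) + ∑ i, β i ^ j) * (b (k - j) : ℂ) = 0 := by
        simp only [add_mul]
        rw [Finset.sum_add_distrib, ← h2, h1]
        ring
      have h5 : ∑ j ∈ Icc 1 k, ((Λ j : ℂ) + ∑ i, β i ^ j) * (b (k - j) : ℂ) =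
          (Λ k : ℂ) + ∑ i, β i ^ k := by
        rw [Finset.sum_eq_single k]
        · rw [Nat.sub_self, hb0]
          norm_num
        · intro j hj hjk
          have h6 := mem_Icc.1 hj
          rw [ih j (by omega) h6.1]
          ring
        · intro h
          exact absurd (mem_Icc.2 ⟨hk, le_rfl⟩) h
      rw [h5] at h4
      linear_combination h4

end Pool.Agent.Work.TC
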